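import Mathlib
import Pool.Agent.K4H52.Brun.Pairs

open Pool.Agent.K4H52.Brun

namespace Pool.Agent.Results.MP_91a61a_gt.BrunnianFamily

/-- For all `n, i, j` with `i ≥ 1`, `j ≥ 0` and `i + j ≤ n - 2`, the link `L_{i,j,n}` is Brunnian
in `ℝ^n`. -/
theorem result : ∀ n i j : ℕ, 1 ≤ i → i + j + 2 ≤ n → IsBrunnian (L i j n) :=
  fun _ _ _ hi hij => brunnian hi hij

end Pool.Agent.Results.MP_91a61a_gt.BrunnianFamily
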